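import Pool.Agent.T6.H29.SG.Core

/-!
# Exact 2-spanning signed sets in cyclic groups: the upper constant is smaller than one

For every `n ≥ 1` there is a set `A ⊆ Z_n` with at most `3 √(n/10) + 6` elements and
`2_± A = Z_n`. Hence `limsup φ_±(Z_n, 2) / √n ≤ 3 / √10 = 0.9486... < 1`.

For `n ≤ 10 a²` the set consists of three arithmetic progressions with `a + 1` terms and the
differences `1`, `a` and `a + 1`. With `h = ⌊n/2⌋` they are `h + a² + x`, `a² + a y`,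
`h - a² + (a + 1) z`. The eight signed sums which contain the first progression cover intervals, the
four others cover parallelograms, which are combined to two intervals.
-/

set_option autoImplicit false

namespace Pool.Agent.Results.MP_5551da_co.UpperHalf

open Pool.Agent.T6.H29.SG

/-- The `h`-fold signed sumset `h_± A` of `A ⊆ Z_n`: all sums `∑ λ_a a` over `a ∈ A` with integers
`λ_a` and `∑ |λ_a| = h`. -/
def signedSumset {n : ℕ} (A : Finset (ZMod n)) (h : ℕ) : Set (ZMod n) :=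
  {g | ∃ l : ZMod n → ℤ, ∑ a ∈ A, |l a| = h ∧ g = ∑ a ∈ A, (l a : ZMod n) * a}

/-- `φ_±(Z_n, h)`: the minimal number of elements of a set `A ⊆ Z_n` with `h_± A = Z_n`. -/
noncomputable def phi (n h : ℕ) : ℕ :=
  sInf {m | ∃ A : Finset (ZMod n), A.card = m ∧ signedSumset A h = Set.univ}

theorem exists_set {n : ℕ} (hn : 0 < n) : ∃ A : Finset (ZMod n),
    (A.card : ℝ) ≤ 3 * Real.sqrt (n / 10) + 6 ∧ signedSumset A 2 = Set.univ := by
  obtain ⟨A, hA, hs⟩ := small hn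
  exact ⟨A, hA, Set.eq_univ_of_forall hs⟩

theorem phi_le {n : ℕ} (hn : 0 < n) : (phi n 2 : ℝ) ≤ 3 * Real.sqrt (n / 10) + 6 := by
  obtain ⟨A, hA, hs⟩ := exists_set hn
  have h : phi n 2 ≤ A.card := Nat.sInf_le ⟨A, rfl, hs⟩
  exact le_trans (by exact_mod_cast h) hA

/-- The upper half of Q1: `φ_±(Z_n, 2) ≤ c₂ √n` for all large `n`, with a constant `c₂ < 1`. -/
theorem result :
    (∀ n : ℕ, 0 < n → ∃ A : Finset (ZMod n),
      (A.card : ℝ) ≤ 3 * Real.sqrt (n / 10) + 6 ∧ signedSumset A 2 = Set.univ) ∧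
    (∀ n : ℕ, 0 < n → (phi n 2 : ℝ) ≤ 3 * Real.sqrt (n / 10) + 6) ∧
    (∀ c : ℝ, 3 / Real.sqrt 10 < c →
      ∀ᶠ n : ℕ in Filter.atTop, (phi n 2 : ℝ) ≤ c * Real.sqrt n) ∧
    (∃ c₂ : ℝ, c₂ < 1 ∧ ∃ n₀ : ℕ, ∀ n ≥ n₀, (phi n 2 : ℝ) ≤ c₂ * Real.sqrt n) := by
  have h3 : ∀ c : ℝ, 3 / Real.sqrt 10 < c →
      ∀ᶠ n : ℕ in Filter.atTop, (phi n 2 : ℝ) ≤ c * Real.sqrt n :=
    fun c hc => asym (fun n hn => phi_le hn) c hc
  refine ⟨fun n hn => exists_set hn, fun n hn => phi_le hn, h3, 0.95, by norm_num, ?_⟩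
  have h4 : 3 / Real.sqrt 10 < 0.95 := by
    rw [div_lt_iff₀ (Real.sqrt_pos.2 (by norm_num))]
    have : (3.16 : ℝ) < Real.sqrt 10 := by
      apply Real.lt_sqrt_of_sq_lt; norm_num
    linarith
  obtain ⟨n₀, hn₀⟩ := Filter.eventually_atTop.1 (h3 0.95 h4)
  exact ⟨n₀, fun n hn => hn₀ n hn⟩

end Pool.Agent.Results.MP_5551da_co.UpperHalf
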